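import Mathlib

set_option autoImplicit false

namespace Pool.Agent.H198Z.Burn

universe u

/-- The free Burnside group of exponent `n` on the set `α` of free generators: the free group on
`α` modulo the normal subgroup generated by all `n`-th powers. -/
abbrev Burnside (α : Type u) (n : ℕ) : Type u :=
  FreeGroup α ⧸ Subgroup.normalClosure (Set.range (fun w : FreeGroup α => w ^ n))

end Pool.Agent.H198Z.Burn
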