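import Mathlib
import Pool.Agent.H198Z.BurnDefs

set_option autoImplicit false

namespace Pool.Agent.H198Z.Burn

universe u v w

/-- The free generators. -/
def gen {α : Type u} (n : ℕ) (i : α) : Burnside α n := QuotientGroup.mk (FreeGroup.of i)

theorem pow_eq_one' {α : Type u} {n : ℕ} (g : Burnside α n) : g ^ n = 1 := by
  induction g using QuotientGroup.induction_on with
  | H w =>
    rw [← QuotientGroup.mk_pow, QuotientGroup.eq_one_iff]
    exact Subgroup.subset_normalClosure ⟨w, rfl⟩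

/-- The universal property. -/
def lift {α : Type u} {n : ℕ} {A : Type w} [Group A] (hA : ∀ a : A, a ^ n = 1) (f : α → A) :
    Burnside α n →* A :=
  QuotientGroup.lift _ (FreeGroup.lift f) (by
    intro x hx
    refine (Subgroup.normalClosure_le_normal (N := (FreeGroup.lift f).ker) ?_) hx
    rintro _ ⟨w, rfl⟩
    simp [MonoidHom.mem_ker, hA])

@[simp] theorem lift_gen {α : Type u} {n : ℕ} {A : Type w} [Group A] (hA : ∀ a : A, a ^ n = 1)
    (f : α → A) (i : α) : lift hA f (gen n i) = f i := by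
  simp [lift, gen]

theorem hom_ext {α : Type u} {n : ℕ} {A : Type w} [Group A] {f g : Burnside α n →* A}
    (h : ∀ i, f (gen n i) = g (gen n i)) : f = g := by
  apply QuotientGroup.monoidHom_ext
  apply FreeGroup.ext_hom
  intro i
  exact h i

theorem not_two {κ : Type v} {m r : ℕ} [Fact r.Prime]
    (ψ : Burnside κ m →* Multiplicative (ZMod r × ZMod r)) (s : Multiplicative (ZMod r × ZMod r))
    (hs : ∀ i, ψ (gen m i) = 1 ∨ ψ (gen m i) = s) (x y : Burnside κ m)
    (hx : ψ x = Multiplicative.ofAdd (1, 0)) (hy : ψ y = Multiplicative.ofAdd (0, 1)) : False := by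
  let l : Multiplicative (ZMod r × ZMod r) →* Multiplicative (ZMod r) :=
    { toFun := fun z => Multiplicative.ofAdd (s.toAdd.2 * z.toAdd.1 - s.toAdd.1 * z.toAdd.2)
      map_one' := by simp
      map_mul' := by
        intro a b
        rw [← ofAdd_add]
        congr 1
        simp only [toAdd_mul, Prod.fst_add, Prod.snd_add]
        ring }
  have h1 : l.comp ψ = 1 := by
    apply hom_ext
    intro i
    rcases hs i with h | h
    · simp [h]
    · simp only [MonoidHom.comp_apply, h, MonoidHom.one_apply, l, MonoidHom.coe_mk, OneHom.coe_mk]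
      rw [mul_comm, sub_self]; rfl
  have hx1 : l (ψ x) = 1 := by simpa using DFunLike.congr_fun h1 x
  have hy1 : l (ψ y) = 1 := by simpa using DFunLike.congr_fun h1 y
  rw [hx] at hx1
  rw [hy] at hy1
  simp only [l, MonoidHom.coe_mk, OneHom.coe_mk, toAdd_ofAdd, mul_one, mul_zero, sub_zero,
    zero_sub, ofAdd_eq_one, neg_eq_zero] at hx1 hy1
  have hs1 : s = 1 := by
    have : s.toAdd = 0 := Prod.ext hy1 hx1
    simpa using this
  have h2 : ψ = 1 := by
    apply hom_ext
    intro i
    rcases hs i with h | h <;> simp [h, hs1]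
  rw [h2] at hx
  have : ((1 : ZMod r), (0 : ZMod r)) = 0 := by simpa using hx.symm
  simp at this

theorem exp_pair {r m : ℕ} (h : r ∣ m) (a : Multiplicative (ZMod r × ZMod r)) : a ^ m = 1 := by
  obtain ⟨c, rfl⟩ := h
  have : a ^ r = 1 := by
    apply Multiplicative.toAdd.injective
    rw [toAdd_pow, toAdd_one]
    ext <;> simp
  rw [pow_mul, this, one_pow]

theorem exists_data {n : ℕ} (hn : 2 ≤ n) (hpp : ¬ IsPrimePow n) :
    ∃ p q e : ℕ, p.Prime ∧ q.Prime ∧ p ∣ n ∧ q ∣ n ∧ e * e ≡ e [MOD n] ∧ e ≡ 1 [MOD p] ∧ q ∣ e := by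
  have hn0 : n ≠ 0 := by omega
  have hp : n.minFac.Prime := Nat.minFac_prime (by omega)
  set p := n.minFac with hpdef
  have hpn : p ∣ n := Nat.minFac_dvd n
  set a := ordProj[p] n with ha
  set b := ordCompl[p] n with hb
  have hab : a * b = n := Nat.ordProj_mul_ordCompl_eq_self n p
  have hco : Nat.Coprime a b := (Nat.coprime_ordCompl hp hn0).pow_left _
  have hpos : 0 < n.factorization p := hp.factorization_pos_of_dvd hn0 hpn
  have hpa : p ∣ a := dvd_pow_self p hpos.ne'
  have hb1 : b ≠ 1 := by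
    intro h
    apply hpp
    rw [← hab, h, mul_one]
    exact (isPrimePow_nat_iff _).2 ⟨p, n.factorization p, hp, hpos, rfl⟩
  have hq : b.minFac.Prime := Nat.minFac_prime hb1
  obtain ⟨e, he1, he0⟩ := Nat.chineseRemainder hco 1 0
  have hbe : b ∣ e := (Nat.modEq_zero_iff_dvd).1 he0
  refine ⟨p, b.minFac, e, hp, hq, hpn, (Nat.minFac_dvd b).trans ⟨a, by rw [← hab, mul_comm]⟩, ?_,
    he1.of_dvd hpa, (Nat.minFac_dvd b).trans hbe⟩
  rw [← hab]
  refine (Nat.modEq_and_modEq_iff_modEq_mul hco).1 ⟨?_, ?_⟩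
  · have := he1.mul_left e
    simpa using this
  · have h1 : e * e ≡ 0 [MOD b] := (Nat.modEq_zero_iff_dvd).2 (hbe.mul_left e)
    exact h1.trans he0.symm

theorem main (n : ℕ) (hn : 2 ≤ n) (hpp : ¬ IsPrimePow n) (α : Type u) [Nontrivial α] :
    ∃ H : Subgroup (Burnside α n), (∃ ρ : Burnside α n →* H, ∀ h : H, ρ h = h) ∧
      ∀ (κ : Type v) (n' : ℕ), IsEmpty (H ≃* Burnside κ n') := by
  classical
  obtain ⟨p, q, e, hp, hq, hpn, hqn, hee, hep, hqe⟩ := exists_data hn hpp
  have := Fact.mk hp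
  have := Fact.mk hq
  obtain ⟨x0, x1, hx⟩ := exists_pair_ne α
  let ρ0 : Burnside α n →* Burnside α n :=
    lift pow_eq_one' (fun i => if i = x0 then gen n x0 ^ e else if i = x1 then gen n x1 else 1)
  have r0 : ρ0 (gen n x0) = gen n x0 ^ e := by simp [ρ0]
  have r1 : ρ0 (gen n x1) = gen n x1 := by simp [ρ0, hx.symm]
  have r2 : ∀ i, i ≠ x0 → i ≠ x1 → ρ0 (gen n i) = 1 := by
    intro i h0 h1; simp [ρ0, h0, h1]
  have hpowe : ∀ g : Burnside α n, (g ^ e) ^ e = g ^ e := by
    intro g
    rw [← pow_mul]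
    exact pow_eq_pow_iff_modEq.2 (hee.of_dvd (orderOf_dvd_of_pow_eq_one (pow_eq_one' g)))
  have hidem : ρ0.comp ρ0 = ρ0 := by
    apply hom_ext
    intro i
    by_cases h0 : i = x0
    · subst h0
      rw [MonoidHom.comp_apply, r0, map_pow, r0, hpowe]
    · by_cases h1 : i = x1
      · subst h1
        rw [MonoidHom.comp_apply, r1, r1]
      · rw [MonoidHom.comp_apply, r2 i h0 h1, map_one]
  have hid : ∀ g, ρ0 (ρ0 g) = ρ0 g := fun g => DFunLike.congr_fun hidem g
  have hρ : ∀ h : ρ0.range, ρ0.rangeRestrict h = h := by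
    rintro ⟨_, g, rfl⟩
    exact Subtype.ext (hid g)
  refine ⟨ρ0.range, ⟨ρ0.rangeRestrict, hρ⟩, fun κ n' => ⟨fun φ => ?_⟩⟩
  -- the standard map to a pair
  have pair : ∀ r : ℕ, r ∣ n → ∃ f : Burnside α n →* Multiplicative (ZMod r × ZMod r),
      f (gen n x0) = Multiplicative.ofAdd (1, 0) ∧ f (gen n x1) = Multiplicative.ofAdd (0, 1) := by
    intro r hr
    refine ⟨lift (exp_pair hr) (fun i => if i = x0 then Multiplicative.ofAdd (1, 0)
      else Multiplicative.ofAdd (0, 1)), by simp, by simp [hx.symm]⟩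
  -- `κ` has two elements
  have hκ : Nontrivial κ := by
    by_contra hsub
    rw [not_nontrivial_iff_subsingleton] at hsub
    obtain ⟨f, f0, f1⟩ := pair p hpn
    let ψ : Burnside κ n' →* Multiplicative (ZMod p × ZMod p) :=
      (f.comp ρ0.range.subtype).comp φ.symm.toMonoidHom
    have hs : ∃ s, ∀ i, ψ (gen n' i) = 1 ∨ ψ (gen n' i) = s := by
      rcases isEmpty_or_nonempty κ with h | ⟨⟨k⟩⟩
      · exact ⟨1, fun i => h.elim i⟩
      · exact ⟨ψ (gen n' k), fun i => Or.inr (by rw [Subsingleton.elim i k])⟩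
    obtain ⟨s, hs⟩ := hs
    refine not_two ψ s hs (φ (ρ0.rangeRestrict (gen n x0))) (φ (ρ0.rangeRestrict (gen n x1))) ?_ ?_
    · simp only [ψ, MonoidHom.comp_apply, MulEquiv.coe_toMonoidHom, MulEquiv.symm_apply_apply,
        Subgroup.coe_subtype, MonoidHom.coe_rangeRestrict, r0, map_pow, f0]
      apply Multiplicative.toAdd.injective
      rw [toAdd_pow, toAdd_ofAdd]
      have : (e : ZMod p) = 1 := by
        have := (ZMod.natCast_eq_natCast_iff e 1 p).2 hep
        simpa using this
      ext <;> simp [this]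
    · simp only [ψ, MonoidHom.comp_apply, MulEquiv.coe_toMonoidHom, MulEquiv.symm_apply_apply,
        Subgroup.coe_subtype, MonoidHom.coe_rangeRestrict, r1, f1]
  -- `q` divides `n'`
  have hqn' : q ∣ n' := by
    obtain ⟨f, -, f1⟩ := pair q hqn
    have h1 : (ρ0.rangeRestrict (gen n x1)) ^ n' = 1 := by
      apply φ.injective
      rw [map_pow, map_one, pow_eq_one']
    have h2 : (gen n x1) ^ n' = 1 := by
      have := congrArg Subtype.val h1
      simpa [r1] using this
    have h3 : (Multiplicative.ofAdd ((0 : ZMod q), (1 : ZMod q))) ^ n' = 1 := by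
      rw [← f1, ← map_pow, h2, map_one]
    have h4 := congrArg (fun z => (Multiplicative.toAdd z).2) h3
    simp only [toAdd_pow, toAdd_ofAdd, toAdd_one, Prod.snd_zero] at h4
    rw [Prod.smul_snd, nsmul_eq_mul, mul_one] at h4
    exact (ZMod.natCast_eq_zero_iff n' q).1 h4
  obtain ⟨k0, k1, hk⟩ := exists_pair_ne κ
  let g : Burnside κ n' →* Multiplicative (ZMod q × ZMod q) :=
    lift (exp_pair hqn') (fun i => if i = k0 then Multiplicative.ofAdd (1, 0)
      else Multiplicative.ofAdd (0, 1))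
  let ψ : Burnside α n →* Multiplicative (ZMod q × ZMod q) :=
    (g.comp φ.toMonoidHom).comp ρ0.rangeRestrict
  refine not_two ψ (ψ (gen n x1)) ?_ (φ.symm (gen n' k0) : ρ0.range) (φ.symm (gen n' k1) : ρ0.range)
    ?_ ?_
  · intro i
    by_cases h0 : i = x0
    · left
      subst h0
      have h1 : ψ (gen n i) = ψ (gen n i) ^ e := by
        rw [← map_pow, ← r0]
        simp only [ψ, MonoidHom.comp_apply]
        congr 2
        exact Subtype.ext (hid _).symm
      rw [h1]
      exact exp_pair hqe _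
    · by_cases h1 : i = x1
      · right; rw [h1]
      · left
        have : ρ0.rangeRestrict (gen n i) = 1 := Subtype.ext (r2 i h0 h1)
        simp only [ψ, MonoidHom.comp_apply, this, map_one]
  · simp only [ψ, MonoidHom.comp_apply, hρ, MulEquiv.coe_toMonoidHom, MulEquiv.apply_symm_apply]
    simp [g]
  · simp only [ψ, MonoidHom.comp_apply, hρ, MulEquiv.coe_toMonoidHom, MulEquiv.apply_symm_apply]
    simp [g, hk.symm]

end Pool.Agent.H198Z.Burn
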